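import Pool.Agent.Q81.SosClosed
import Pool.Agent.Q81.Motzkin
import Mathlib.RingTheory.MvPolynomial.Symmetric.Defs
import Mathlib.RingTheory.MvPolynomial.WeightedHomogeneous
import Mathlib.Analysis.Normed.Ring.InfiniteSum
import Mathlib.Topology.Algebra.InfiniteSum.Real

set_option autoImplicit false

open MvPolynomial Filter Topology

namespace Pool.Agent.Results.MP_2f3180_ag.StrictPositivity

open Pool.Agent.Q81.SumSq Pool.Agent.Q81.Motzkin Pool.Agent.Q81.SosClosed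

/-- Symmetric functions are written as polynomials in the power sums: the variable `X k` stands for
`p_k`.  The truncation `f⁽ⁿ⁾ ∈ ℝ[X_1,…,X_n]` is obtained by substituting the power sums of `n`
variables. -/
noncomputable def trunc (n : ℕ) (g : MvPolynomial ℕ ℝ) : MvPolynomial (Fin n) ℝ :=
  aeval (fun k => psum (Fin n) ℝ k) g

/-- The value `f(x)` at a sequence `x`. -/
noncomputable def evalSeq (g : MvPolynomial ℕ ℝ) (x : ℕ → ℝ) : ℝ :=
  eval (fun k => ∑' i, x i ^ k) g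

/-- The unit sphere `S` of `ℓ²`. -/
def sphere : Set (ℕ → ℝ) := {x | Summable (fun i => x i ^ 2) ∧ ∑' i, x i ^ 2 = 1}

/-- `f = ∑ c_λ m_λ`, where `λ` runs over the partitions of `N` with all parts even, and all
`c_λ ≥ 0`.  (An identity of symmetric functions is an identity of all truncations.) -/
def HasNonnegExpansion (N : ℕ) (g : MvPolynomial ℕ ℝ) : Prop :=
  ∃ c : N.Partition → ℝ, (∀ μ, 0 ≤ c μ) ∧ (∀ μ, (∃ a ∈ μ.parts, ¬ Even a) → c μ = 0) ∧
    ∀ n, trunc n g = ∑ μ, C (c μ) * msymm (Fin n) ℝ μ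

/-- A real polynomial is a sum of squares of real polynomials. -/
def IsSos {n : ℕ} (p : MvPolynomial (Fin n) ℝ) : Prop :=
  ∃ (r : ℕ) (h : Fin r → MvPolynomial (Fin n) ℝ), p = ∑ i, h i ^ 2

/-! ### Nonnegative coefficients -/

/-- all coefficients are nonnegative -/
def NN {σ : Type} (p : MvPolynomial σ ℝ) : Prop := ∀ m, 0 ≤ coeff m p

section NN

variable {σ : Type}

lemma NN.add {p q : MvPolynomial σ ℝ} (hp : NN p) (hq : NN q) : NN (p + q) := fun m => by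
  rw [coeff_add]; exact add_nonneg (hp m) (hq m)

lemma NN.mul {p q : MvPolynomial σ ℝ} (hp : NN p) (hq : NN q) : NN (p * q) := fun m => by
  classical
  rw [coeff_mul]
  exact Finset.sum_nonneg (fun x _ => mul_nonneg (hp _) (hq _))

lemma NN.C {a : ℝ} (ha : 0 ≤ a) : NN (C a : MvPolynomial σ ℝ) := fun m => by
  classical
  rw [coeff_C]; split_ifs <;> simp [ha]

lemma NN.X (i : σ) : NN (X i : MvPolynomial σ ℝ) := fun m => by
  classical
  rw [coeff_X]; split_ifs <;> simp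

lemma NN.one : NN (1 : MvPolynomial σ ℝ) := by
  have := NN.C (σ := σ) (zero_le_one (α := ℝ))
  rwa [C_1] at this

lemma NN.pow {p : MvPolynomial σ ℝ} (hp : NN p) (k : ℕ) : NN (p ^ k) := by
  induction k with
  | zero => rw [pow_zero]; exact NN.one
  | succ k ih => rw [pow_succ]; exact ih.mul hp

lemma NN.sum {ι : Type} (s : Finset ι) (f : ι → MvPolynomial σ ℝ) (h : ∀ i ∈ s, NN (f i)) :
    NN (∑ i ∈ s, f i) := fun m => by
  rw [coeff_sum]
  exact Finset.sum_nonneg (fun i hi => h i hi m)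

lemma NN.multiset_prod (s : Multiset σ) : NN ((s.map (MvPolynomial.X : σ → MvPolynomial σ ℝ)).prod) := by
  induction s using Multiset.induction with
  | empty => simp only [Multiset.map_zero, Multiset.prod_zero]; exact NN.one
  | cons a s ih =>
    rw [Multiset.map_cons, Multiset.prod_cons]
    exact (NN.X a).mul ih

/-- The coefficient of a product of polynomials with nonnegative coefficients. -/
lemma coeff_mul_ge {p q : MvPolynomial σ ℝ} (hp : NN p) (hq : NN q) (a b : σ →₀ ℕ) :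
    coeff a p * coeff b q ≤ coeff (a + b) (p * q) := by
  classical
  rw [coeff_mul]
  exact Finset.single_le_sum (f := fun x : (σ →₀ ℕ) × (σ →₀ ℕ) => coeff x.1 p * coeff x.2 q)
    (fun x _ => mul_nonneg (hp _) (hq _)) (a := (a, b)) (Finset.mem_antidiagonal.mpr rfl)

end NN

lemma NN.psum (n k : ℕ) : NN (psum (Fin n) ℝ k) := by
  rw [MvPolynomial.psum]
  exact NN.sum _ _ (fun i _ => (NN.X i).pow k)

lemma NN.msymm (n N : ℕ) (μ : N.Partition) : NN (msymm (Fin n) ℝ μ) := by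
  rw [MvPolynomial.msymm]
  refine NN.sum _ _ (fun s _ => ?_)
  exact NN.multiset_prod _

lemma coeff_psum_single (n k : ℕ) (hk : k ≠ 0) (i : Fin n) :
    coeff (Finsupp.single i k) (psum (Fin n) ℝ k) = 1 := by
  classical
  rw [MvPolynomial.psum, coeff_sum, Finset.sum_eq_single i]
  · rw [X_pow_eq_monomial, coeff_monomial, if_pos rfl]
  · intro j _ hj
    rw [X_pow_eq_monomial, coeff_monomial, if_neg]
    intro h
    have h1 := congrArg (fun f => f j) h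
    simp only [Finsupp.single_eq_same, Finsupp.single_apply] at h1
    rw [if_neg (Ne.symm hj)] at h1
    exact hk h1
  · intro h
    exact absurd (Finset.mem_univ i) h

lemma not_expansion_of_neg (N n : ℕ) (g : MvPolynomial ℕ ℝ) (m : Fin n →₀ ℕ)
    (h : coeff m (trunc n g) < 0) : ¬ HasNonnegExpansion N g := by
  rintro ⟨c, hc, -, hexp⟩
  rw [hexp n] at h
  have : NN (∑ μ, C (c μ) * msymm (Fin n) ℝ μ) :=
    NN.sum _ _ (fun μ _ => (NN.C (hc μ)).mul (NN.msymm n N μ))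
  exact absurd (this m) (not_le.mpr h)

/-! ### The counterexample to Q1 -/

/-- `f = 2 p₂ p₆ - p₄²`. -/
noncomputable def f₁ : MvPolynomial ℕ ℝ := C 2 * X 2 * X 6 - X 4 ^ 2

/-- the exponent of the monomial with negative coefficient -/
noncomputable def expo₁ (k : ℕ) : Fin (k + 2) →₀ ℕ :=
  (∑ i ∈ (Finset.univ \ {0, 1} : Finset (Fin (k + 2))), Finsupp.single i 2) +
    (Finsupp.single 0 4 + Finsupp.single 1 4)

lemma coeff_pow_psum_two (n : ℕ) (s : Finset (Fin n)) :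
    0 < coeff (∑ i ∈ s, Finsupp.single i 2) (psum (Fin n) ℝ 2 ^ s.card) := by
  classical
  induction s using Finset.induction_on with
  | empty => simp
  | insert a s ha ih =>
    rw [Finset.sum_insert ha, Finset.card_insert_of_notMem ha, pow_succ, add_comm]
    refine lt_of_lt_of_le ?_ (coeff_mul_ge ((NN.psum n 2).pow _) (NN.psum n 2) _ _)
    rw [coeff_psum_single n 2 (by norm_num), mul_one]
    exact ih

lemma expo₁_le (k : ℕ) (i : Fin (k + 2)) : expo₁ k i ≤ 4 := by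
  classical
  have h01 : (0 : Fin (k + 2)) ≠ 1 := by
    intro h
    have := congrArg Fin.val h
    simp at this
  have h1 : ∀ s : Finset (Fin (k + 2)), (∑ j ∈ s, Finsupp.single j 2 : Fin (k + 2) →₀ ℕ) i =
      if i ∈ s then 2 else 0 := by
    intro s
    rw [Finsupp.finsetSum_apply]
    simp only [Finsupp.single_apply]
    rw [Finset.sum_ite_eq']
  rw [expo₁, Finsupp.add_apply, Finsupp.add_apply, h1]
  simp only [Finset.mem_sdiff, Finset.mem_univ, true_and, Finset.mem_insert, Finset.mem_singleton,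
    Finsupp.single_apply]
  by_cases h0 : i = 0
  · subst h0
    simp [h01.symm]
  · by_cases h2 : i = 1
    · subst h2
      simp [h01]
    · simp [h0, h2, Ne.symm h0, Ne.symm h2]

lemma trunc_f₁ (n k : ℕ) : trunc n (X 2 ^ k * f₁) =
    C 2 * psum (Fin n) ℝ 2 ^ (k + 1) * psum (Fin n) ℝ 6 -
      psum (Fin n) ℝ 2 ^ k * (psum (Fin n) ℝ 4 * psum (Fin n) ℝ 4) := by
  simp only [trunc, f₁, map_mul, map_pow, map_sub, aeval_X]
  rw [aeval_C]
  change psum (Fin n) ℝ 2 ^ k * (C 2 * _ * _ - _) = _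
  ring

lemma coeff_neg (k : ℕ) : coeff (expo₁ k) (trunc (k + 2) (X 2 ^ k * f₁)) < 0 := by
  classical
  rw [trunc_f₁, coeff_sub]
  have h1 : coeff (expo₁ k) (C 2 * psum (Fin (k + 2)) ℝ 2 ^ (k + 1) * psum (Fin (k + 2)) ℝ 6) = 0 := by
    rw [show psum (Fin (k + 2)) ℝ 6 = ∑ i, X i ^ 6 from rfl, Finset.mul_sum, coeff_sum]
    refine Finset.sum_eq_zero (fun i _ => ?_)
    rw [X_pow_eq_monomial, coeff_mul_monomial', if_neg]
    intro h
    have h2 := h i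
    rw [Finsupp.single_eq_same] at h2
    have := expo₁_le k i
    omega
  have hcard : (Finset.univ \ {0, 1} : Finset (Fin (k + 2))).card = k := by
    rw [Finset.card_sdiff_of_subset (Finset.subset_univ _), Finset.card_univ, Fintype.card_fin,
      Finset.card_pair]
    · omega
    · intro h
      have := congrArg Fin.val h
      simp at this
  have h2 : 0 < coeff (expo₁ k) (psum (Fin (k + 2)) ℝ 2 ^ k *
      (psum (Fin (k + 2)) ℝ 4 * psum (Fin (k + 2)) ℝ 4)) := by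
    rw [expo₁]
    refine lt_of_lt_of_le ?_ (coeff_mul_ge ((NN.psum _ 2).pow _) ((NN.psum _ 4).mul (NN.psum _ 4)) _ _)
    refine mul_pos ?_ ?_
    · have := coeff_pow_psum_two (k + 2) (Finset.univ \ {0, 1})
      rwa [hcard] at this
    · refine lt_of_lt_of_le ?_ (coeff_mul_ge (NN.psum _ 4) (NN.psum _ 4) _ _)
      rw [coeff_psum_single _ 4 (by norm_num), coeff_psum_single _ 4 (by norm_num)]
      norm_num
  rw [h1]
  linarith

/-! ### Power sums on the sphere -/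

lemma summable_pow {x : ℕ → ℝ} (hx : x ∈ sphere) (k : ℕ) (hk : 2 ≤ k) :
    Summable (fun i => x i ^ k) := by
  obtain ⟨h1, h2⟩ := hx
  have hle : ∀ i, x i ^ 2 ≤ 1 := fun i => by
    rw [← h2]
    exact h1.le_tsum i (fun j _ => sq_nonneg _)
  refine Summable.of_norm_bounded h1 (fun i => ?_)
  rw [Real.norm_eq_abs, abs_pow]
  obtain ⟨l, rfl⟩ : ∃ l, k = 2 + l := ⟨k - 2, by omega⟩
  rw [pow_add, sq_abs]
  have h3 : |x i| ≤ 1 := by
    rw [← sq_le_one_iff_abs_le_one]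
    exact hle i
  have h4 : |x i| ^ l ≤ 1 := pow_le_one₀ (abs_nonneg _) h3
  nlinarith [sq_nonneg (x i)]

lemma exists_ne_zero {x : ℕ → ℝ} (hx : x ∈ sphere) : ∃ i, x i ≠ 0 := by
  by_contra h
  push Not at h
  have := hx.2
  simp [h] at this

lemma even_pos {x : ℕ → ℝ} (hx : x ∈ sphere) (k : ℕ) (hk : 2 ≤ k) (he : Even k) :
    0 < ∑' i, x i ^ k := by
  obtain ⟨i, hi⟩ := exists_ne_zero hx
  exact (summable_pow hx k hk).tsum_pos (fun j => he.pow_nonneg _) i (he.pow_pos hi)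

lemma cauchy_schwarz {x : ℕ → ℝ} (hx : x ∈ sphere) :
    (∑' i, x i ^ 4) ^ 2 ≤ ∑' i, x i ^ 6 := by
  set t := ∑' i, x i ^ 4 with ht
  have s2 := hx.1
  have s4 := summable_pow hx 4 (by norm_num)
  have s6 := summable_pow hx 6 (by norm_num)
  have h1 : 0 ≤ ∑' i, (x i ^ 3 - t * x i) ^ 2 := tsum_nonneg (fun i => sq_nonneg _)
  have h2 : ∑' i, (x i ^ 3 - t * x i) ^ 2 = ∑' i, x i ^ 6 - 2 * t * ∑' i, x i ^ 4 +
      t ^ 2 * ∑' i, x i ^ 2 := by
    have e1 := s6.tsum_sub (s4.mul_left (2 * t))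
    have e2 := (s6.sub (s4.mul_left (2 * t))).tsum_add (s2.mul_left (t ^ 2))
    rw [tsum_mul_left] at e1 e2
    rw [← e1, ← e2]
    exact tsum_congr (fun i => by ring)
  rw [h2, hx.2, ← ht] at h1
  nlinarith

lemma f₁_pos {x : ℕ → ℝ} (hx : x ∈ sphere) : 0 < evalSeq f₁ x := by
  have h1 := cauchy_schwarz hx
  have h2 := even_pos hx 6 (by norm_num) (by decide)
  simp only [evalSeq, f₁, map_sub, map_mul, map_pow, eval_X, eval_C]
  rw [hx.2]
  linarith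

/-! ### The counterexample to Q2 -/

/-- `f = p₂ M(p₃ p₆, p₄ p₅, p₉) + p₄¹⁴`, where `M` is the Motzkin form. -/
noncomputable def f₂ : MvPolynomial ℕ ℝ :=
  X 2 * ((X 3 * X 6) ^ 4 * (X 4 * X 5) ^ 2 + (X 3 * X 6) ^ 2 * (X 4 * X 5) ^ 4 -
    C 3 * ((X 3 * X 6) ^ 2 * (X 4 * X 5) ^ 2 * X 9 ^ 2) + X 9 ^ 6) + X 4 ^ 14

lemma f₂_eval (P : ℕ → ℝ) : eval P f₂ = P 2 * mot (P 3 * P 6) (P 4 * P 5) (P 9) + P 4 ^ 14 := by
  simp [f₂, mot]

lemma f₂_pos {x : ℕ → ℝ} (hx : x ∈ sphere) : 0 < evalSeq f₂ x := by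
  have h1 := even_pos hx 4 (by norm_num) (by decide)
  rw [evalSeq, f₂_eval, hx.2, one_mul]
  have := mot_nonneg ((∑' i, x i ^ 3) * ∑' i, x i ^ 6) ((∑' i, x i ^ 4) * ∑' i, x i ^ 5)
    (∑' i, x i ^ 9)
  positivity

lemma eval_trunc (n : ℕ) (g : MvPolynomial ℕ ℝ) (x : Fin n → ℝ) :
    eval x (trunc n g) = eval (fun k => ∑ i, x i ^ k) g := by
  rw [trunc]
  induction g using MvPolynomial.induction_on with
  | C a => simp
  | add p q hp hq => rw [map_add, map_add, map_add, hp, hq]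
  | mul_X p i hp =>
    rw [map_mul, map_mul, map_mul, hp, aeval_X, eval_X]
    simp [MvPolynomial.psum]

/-- total degree under an affine substitution -/
lemma totalDegree_aeval_le {n m : ℕ} (ξ : Fin n → MvPolynomial (Fin m) ℝ)
    (hξ : ∀ i, (ξ i).totalDegree ≤ 1) (h : MvPolynomial (Fin n) ℝ) :
    (aeval ξ h).totalDegree ≤ h.totalDegree := by
  rw [aeval_def, eval₂_eq]
  refine totalDegree_finsetSum_le (fun d hd => ?_)
  refine (totalDegree_mul _ _).trans ?_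
  rw [algebraMap_eq, totalDegree_C, zero_add]
  refine (totalDegree_finsetProd _ _).trans ?_
  refine le_trans ?_ (le_totalDegree hd)
  refine Finset.sum_le_sum (fun i _ => ?_)
  refine (totalDegree_pow _ _).trans ?_
  exact (Nat.mul_le_mul_left _ (hξ i)).trans (by rw [mul_one])

lemma psum_homogeneous (n k : ℕ) : (psum (Fin n) ℝ k).IsHomogeneous k := by
  rw [psum]
  refine IsHomogeneous.sum _ _ _ (fun i _ => ?_)
  have := (isHomogeneous_X ℝ i).pow k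
  simpa using this

lemma trunc_f₂ (n k : ℕ) : trunc n (X 2 ^ k * f₂) = psum (Fin n) ℝ 2 ^ k * (psum (Fin n) ℝ 2 *
    ((psum (Fin n) ℝ 3 * psum (Fin n) ℝ 6) ^ 4 * (psum (Fin n) ℝ 4 * psum (Fin n) ℝ 5) ^ 2 +
      (psum (Fin n) ℝ 3 * psum (Fin n) ℝ 6) ^ 2 * (psum (Fin n) ℝ 4 * psum (Fin n) ℝ 5) ^ 4 -
    C 3 * ((psum (Fin n) ℝ 3 * psum (Fin n) ℝ 6) ^ 2 * (psum (Fin n) ℝ 4 * psum (Fin n) ℝ 5) ^ 2 *
      psum (Fin n) ℝ 9 ^ 2) + psum (Fin n) ℝ 9 ^ 6) + psum (Fin n) ℝ 4 ^ 14) := by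
  simp only [trunc, f₂, map_mul, map_pow, map_sub, map_add, aeval_X]
  rw [aeval_C]
  rfl

lemma trunc_f₂_homogeneous (n k : ℕ) : (trunc n (X 2 ^ k * f₂)).IsHomogeneous (2 * (k + 28)) := by
  rw [trunc_f₂]
  have h2 := psum_homogeneous n 2
  have h3 := psum_homogeneous n 3
  have h4 := psum_homogeneous n 4
  have h5 := psum_homogeneous n 5
  have h6 := psum_homogeneous n 6
  have h9 := psum_homogeneous n 9
  have hA := h3.mul h6
  have hB := h4.mul h5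
  have t1 : IsHomogeneous ((psum (Fin n) ℝ 3 * psum (Fin n) ℝ 6) ^ 4 *
      (psum (Fin n) ℝ 4 * psum (Fin n) ℝ 5) ^ 2) 54 := (hA.pow 4).mul (hB.pow 2)
  have t2 : IsHomogeneous ((psum (Fin n) ℝ 3 * psum (Fin n) ℝ 6) ^ 2 *
      (psum (Fin n) ℝ 4 * psum (Fin n) ℝ 5) ^ 4) 54 := (hA.pow 2).mul (hB.pow 4)
  have t3 : IsHomogeneous (C 3 * ((psum (Fin n) ℝ 3 * psum (Fin n) ℝ 6) ^ 2 *
      (psum (Fin n) ℝ 4 * psum (Fin n) ℝ 5) ^ 2 * psum (Fin n) ℝ 9 ^ 2)) 54 :=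
    (isHomogeneous_C (Fin n) (3 : ℝ)).mul (((hA.pow 2).mul (hB.pow 2)).mul (h9.pow 2))
  have t4 : IsHomogeneous (psum (Fin n) ℝ 9 ^ 6) 54 := h9.pow 6
  have t5 : IsHomogeneous (psum (Fin n) ℝ 4 ^ 14) 56 := h4.pow 14
  have t6 := h2.mul (((t1.add t2).sub t3).add t4)
  have t7 := (h2.pow k).mul (t6.add t5)
  convert t7 using 1
  ring

/-- difference quotients of power sums -/
def q3 (r e y : ℝ) : ℝ := y * (3 * r ^ 2 + 3 * r * (e * y) + (e * y) ^ 2)
/-- difference quotients of power sums -/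
def q5 (r e y : ℝ) : ℝ := y * (5 * r ^ 4 + 10 * r ^ 3 * (e * y) + 10 * r ^ 2 * (e * y) ^ 2 +
  5 * r * (e * y) ^ 3 + (e * y) ^ 4)
/-- difference quotients of power sums -/
def q9 (r e y : ℝ) : ℝ := y * (9 * r ^ 8 + 36 * r ^ 7 * (e * y) + 84 * r ^ 6 * (e * y) ^ 2 +
  126 * r ^ 5 * (e * y) ^ 3 + 126 * r ^ 4 * (e * y) ^ 4 + 84 * r ^ 3 * (e * y) ^ 5 +
  36 * r ^ 2 * (e * y) ^ 6 + 9 * r * (e * y) ^ 7 + (e * y) ^ 8)

/-- even power sums of the six perturbed entries -/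
def ev (k : ℕ) (e y1 y2 y3 : ℝ) : ℝ :=
  (1 + e * y1) ^ k + 1 + (2 + e * y2) ^ k + 2 ^ k + (3 + e * y3) ^ k + 3 ^ k

/-- The rescaled value of `p₂^k f₂` at the perturbed points. -/
noncomputable def Gfun (k : ℕ) (e y1 y2 y3 : ℝ) : ℝ :=
  (e ^ 8 * ev 2 e y1 y2 y3 + 1) ^ (k + 1) *
    mot ((q3 1 e y1 + q3 2 e y2 + q3 3 e y3) * (ev 6 e y1 y2 y3 + e ^ 12 / 16))
      ((ev 4 e y1 y2 y3 + e ^ 2 / 4) * (q5 1 e y1 + q5 2 e y2 + q5 3 e y3))
      (q9 1 e y1 + q9 2 e y2 + q9 3 e y3) +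
  (e ^ 8 * ev 2 e y1 y2 y3 + 1) ^ k * e ^ 2 * (ev 4 e y1 y2 y3 + e ^ 2 / 4) ^ 14

lemma Gfun_continuous (k : ℕ) (y1 y2 y3 : ℝ) : Continuous (fun e => Gfun k e y1 y2 y3) := by
  unfold Gfun mot ev q3 q5 q9
  fun_prop

/-- coordinates -/
noncomputable def y1 (z : Fin 3 → ℝ) : ℝ :=
  39 / 28 * (z 0 / 4764) - 19 / 48 * (z 1 / 980) + 1 / 336 * (z 2 / 9)
/-- coordinates -/
noncomputable def y2 (z : Fin 3 → ℝ) : ℝ :=
  -(3 / 28) * (z 0 / 4764) + 13 / 120 * (z 1 / 980) - 1 / 840 * (z 2 / 9)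
/-- coordinates -/
noncomputable def y3 (z : Fin 3 → ℝ) : ℝ :=
  1 / 252 * (z 0 / 4764) - 1 / 240 * (z 1 / 980) + 1 / 5040 * (z 2 / 9)

lemma Gfun_zero (k : ℕ) (z : Fin 3 → ℝ) :
    Gfun k 0 (y1 z) (y2 z) (y3 z) = mot (z 0) (z 1) (z 2) := by
  have a1 : (q3 1 0 (y1 z) + q3 2 0 (y2 z) + q3 3 0 (y3 z)) *
      (ev 6 0 (y1 z) (y2 z) (y3 z) + 0 ^ 12 / 16) = z 0 := by
    simp only [q3, ev, y1, y2, y3]; ring
  have a2 : (ev 4 0 (y1 z) (y2 z) (y3 z) + 0 ^ 2 / 4) *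
      (q5 1 0 (y1 z) + q5 2 0 (y2 z) + q5 3 0 (y3 z)) = z 1 := by
    simp only [q5, ev, y1, y2, y3]; ring
  have a3 : q9 1 0 (y1 z) + q9 2 0 (y2 z) + q9 3 0 (y3 z) = z 2 := by
    simp only [q9, y1, y2, y3]; ring
  rw [Gfun, a1, a2, a3]
  ring

/-- the points -/
noncomputable def pnt (K : ℕ) (δ e u1 u2 u3 : ℝ) : Fin (6 + (K + K)) → ℝ :=
  Fin.append ![1 + e * u1, -1, 2 + e * u2, -2, 3 + e * u3, -3]
    (Fin.append (fun _ => δ) (fun _ => -δ))

lemma pnt_sum (K : ℕ) (δ e u1 u2 u3 : ℝ) (k : ℕ) :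
    ∑ i, pnt K δ e u1 u2 u3 i ^ k = ((1 + e * u1) ^ k + (-1) ^ k + (2 + e * u2) ^ k + (-2) ^ k +
      (3 + e * u3) ^ k + (-3) ^ k) + (K * δ ^ k + K * (-δ) ^ k) := by
  rw [Fin.sum_univ_add, Fin.sum_univ_add]
  simp only [pnt, Fin.append_left, Fin.append_right]
  rw [Fin.sum_univ_six]
  simp

/-- The key computation. -/
lemma value (k J : ℕ) (hJ : 0 < J) (u1 u2 u3 : ℝ) :
    eval (pnt (2 * J ^ 18) ((1 / (J : ℝ)) ^ 5 / 2) (1 / (J : ℝ)) u1 u2 u3)
      (trunc (6 + (2 * J ^ 18 + 2 * J ^ 18)) (X 2 ^ k * f₂)) * ((1 / (J : ℝ)) ^ (4 * k + 1)) ^ 2 =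
    Gfun k (1 / (J : ℝ)) u1 u2 u3 := by
  have hJ' : (J : ℝ) ≠ 0 := by exact_mod_cast hJ.ne'
  set e : ℝ := 1 / (J : ℝ) with he
  have heJ : e * J = 1 := by rw [he]; field_simp
  have he0 : e ≠ 0 := by rw [he]; positivity
  have hJe : (J : ℝ) = 1 / e := by rw [he]; field_simp
  rw [eval_trunc, map_mul, map_pow, eval_X, f₂_eval]
  simp only [pnt_sum]
  have c2 : (((2 * J ^ 18 : ℕ) : ℝ) * (e ^ 5 / 2) ^ 2 + ((2 * J ^ 18 : ℕ) : ℝ) * (-(e ^ 5 / 2)) ^ 2) =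
      1 / e ^ 8 := by
    push_cast
    rw [hJe]; field_simp; ring
  have c4 : (((2 * J ^ 18 : ℕ) : ℝ) * (e ^ 5 / 2) ^ 4 + ((2 * J ^ 18 : ℕ) : ℝ) * (-(e ^ 5 / 2)) ^ 4) =
      e ^ 2 / 4 := by
    push_cast
    rw [hJe]; field_simp; ring
  have c6 : (((2 * J ^ 18 : ℕ) : ℝ) * (e ^ 5 / 2) ^ 6 + ((2 * J ^ 18 : ℕ) : ℝ) * (-(e ^ 5 / 2)) ^ 6) =
      e ^ 12 / 16 := by
    push_cast
    rw [hJe]; field_simp; ring
  have c3 : (((2 * J ^ 18 : ℕ) : ℝ) * (e ^ 5 / 2) ^ 3 + ((2 * J ^ 18 : ℕ) : ℝ) * (-(e ^ 5 / 2)) ^ 3) =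
      0 := by ring
  have c5 : (((2 * J ^ 18 : ℕ) : ℝ) * (e ^ 5 / 2) ^ 5 + ((2 * J ^ 18 : ℕ) : ℝ) * (-(e ^ 5 / 2)) ^ 5) =
      0 := by ring
  have c9 : (((2 * J ^ 18 : ℕ) : ℝ) * (e ^ 5 / 2) ^ 9 + ((2 * J ^ 18 : ℕ) : ℝ) * (-(e ^ 5 / 2)) ^ 9) =
      0 := by ring
  rw [c2, c3, c4, c5, c6, c9]
  have d2 : (1 + e * u1) ^ 2 + (-1) ^ 2 + (2 + e * u2) ^ 2 + (-2) ^ 2 + (3 + e * u3) ^ 2 + (-3) ^ 2 +
      1 / e ^ 8 = (e ^ 8 * ev 2 e u1 u2 u3 + 1) / e ^ 8 := by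
    simp only [ev]; field_simp
  have d4 : (1 + e * u1) ^ 4 + (-1) ^ 4 + (2 + e * u2) ^ 4 + (-2) ^ 4 + (3 + e * u3) ^ 4 + (-3) ^ 4 +
      e ^ 2 / 4 = ev 4 e u1 u2 u3 + e ^ 2 / 4 := by
    simp only [ev]; ring
  have d6 : (1 + e * u1) ^ 6 + (-1) ^ 6 + (2 + e * u2) ^ 6 + (-2) ^ 6 + (3 + e * u3) ^ 6 + (-3) ^ 6 +
      e ^ 12 / 16 = ev 6 e u1 u2 u3 + e ^ 12 / 16 := by
    simp only [ev]; ring
  have d3 : (1 + e * u1) ^ 3 + (-1) ^ 3 + (2 + e * u2) ^ 3 + (-2) ^ 3 + (3 + e * u3) ^ 3 + (-3) ^ 3 +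
      0 = e * (q3 1 e u1 + q3 2 e u2 + q3 3 e u3) := by
    simp only [q3]; ring
  have d5 : (1 + e * u1) ^ 5 + (-1) ^ 5 + (2 + e * u2) ^ 5 + (-2) ^ 5 + (3 + e * u3) ^ 5 + (-3) ^ 5 +
      0 = e * (q5 1 e u1 + q5 2 e u2 + q5 3 e u3) := by
    simp only [q5]; ring
  have d9 : (1 + e * u1) ^ 9 + (-1) ^ 9 + (2 + e * u2) ^ 9 + (-2) ^ 9 + (3 + e * u3) ^ 9 + (-3) ^ 9 +
      0 = e * (q9 1 e u1 + q9 2 e u2 + q9 3 e u3) := by
    simp only [q9]; ring
  rw [d2, d3, d4, d5, d6, d9, Gfun]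
  generalize ev 2 e u1 u2 u3 = E2
  generalize ev 4 e u1 u2 u3 + e ^ 2 / 4 = E4
  generalize ev 6 e u1 u2 u3 + e ^ 12 / 16 = E6
  generalize q3 1 e u1 + q3 2 e u2 + q3 3 e u3 = Q3
  generalize q5 1 e u1 + q5 2 e u2 + q5 3 e u3 = Q5
  generalize q9 1 e u1 + q9 2 e u2 + q9 3 e u3 = Q9
  have m1 : mot (e * Q3 * E6) (E4 * (e * Q5)) (e * Q9) = e ^ 6 * mot (Q3 * E6) (E4 * Q5) Q9 := by
    simp only [mot]; ring
  rw [m1]
  have p1 : (e ^ (4 * k + 1)) ^ 2 = (e ^ 8) ^ k * e ^ 2 := by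
    rw [← pow_mul, ← pow_mul, ← pow_add]
    congr 1
    ring
  rw [p1, div_pow]
  have hek : (e ^ 8) ^ k ≠ 0 := pow_ne_zero _ (pow_ne_zero _ he0)
  generalize e ^ 8 * E2 + 1 = B
  rw [pow_succ B k]
  generalize (e ^ 8) ^ k = D at hek
  generalize B ^ k = D2
  field_simp

/-- the substitution polynomials -/
noncomputable def subst (K : ℕ) (δ e : ℝ) : Fin (6 + (K + K)) → MvPolynomial (Fin 3) ℝ :=
  Fin.append ![C 1 + C e * (C (39 / 28 / 4764) * X 0 - C (19 / 48 / 980) * X 1 + C (1 / 336 / 9) * X 2),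
      C (-1),
      C 2 + C e * (C (-(3 / 28) / 4764) * X 0 + C (13 / 120 / 980) * X 1 - C (1 / 840 / 9) * X 2),
      C (-2),
      C 3 + C e * (C (1 / 252 / 4764) * X 0 - C (1 / 240 / 980) * X 1 + C (1 / 5040 / 9) * X 2),
      C (-3)]
    (Fin.append (fun _ => C δ) (fun _ => C (-δ)))

lemma subst_eval (K : ℕ) (δ e : ℝ) (z : Fin 3 → ℝ) :
    (fun i => eval z (subst K δ e i)) = pnt K δ e (y1 z) (y2 z) (y3 z) := by
  funext i
  refine Fin.addCases (fun i => ?_) (fun i => ?_) i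
  · simp only [subst, pnt, Fin.append_left]
    fin_cases i <;> simp [y1, y2, y3] <;> left <;> ring
  · refine Fin.addCases (fun i => ?_) (fun i => ?_) i
    · simp only [subst, pnt, Fin.append_left, Fin.append_right, eval_C]
    · simp only [subst, pnt, Fin.append_right, eval_C]

lemma lin_totalDegree (a b c d : ℝ) (e : ℝ) :
    (C a + C e * (C b * X 0 + C c * X 1 + C d * X 2) : MvPolynomial (Fin 3) ℝ).totalDegree ≤ 1 := by
  have hX : ∀ (r : ℝ) (i : Fin 3), (C r * X i : MvPolynomial (Fin 3) ℝ).totalDegree ≤ 1 := by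
    intro r i
    refine (totalDegree_mul _ _).trans ?_
    rw [totalDegree_C, totalDegree_X]
  refine (totalDegree_add _ _).trans (max_le ?_ ?_)
  · rw [totalDegree_C]; exact Nat.zero_le _
  · refine (totalDegree_mul _ _).trans ?_
    rw [totalDegree_C, zero_add]
    refine (totalDegree_add _ _).trans (max_le ((totalDegree_add _ _).trans (max_le ?_ ?_)) ?_)
    · exact hX _ _
    · exact hX _ _
    · exact hX _ _

lemma subst_totalDegree (K : ℕ) (δ e : ℝ) (i : Fin (6 + (K + K))) :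
    (subst K δ e i).totalDegree ≤ 1 := by
  refine Fin.addCases (fun i => ?_) (fun i => ?_) i
  · simp only [subst, Fin.append_left]
    fin_cases i
    · have := lin_totalDegree 1 (39 / 28 / 4764) (-(19 / 48 / 980)) (1 / 336 / 9) e
      convert this using 2
      simp [sub_eq_add_neg]
    · simp
    · have := lin_totalDegree 2 (-(3 / 28) / 4764) (13 / 120 / 980) (-(1 / 840 / 9)) e
      convert this using 2
      simp [sub_eq_add_neg]
    · change (C (-2) : MvPolynomial (Fin 3) ℝ).totalDegree ≤ 1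
      rw [totalDegree_C]; exact Nat.zero_le _
    · have := lin_totalDegree 3 (1 / 252 / 4764) (-(1 / 240 / 980)) (1 / 5040 / 9) e
      convert this using 2
      simp [sub_eq_add_neg]
    · change (C (-3) : MvPolynomial (Fin 3) ℝ).totalDegree ≤ 1
      rw [totalDegree_C]; exact Nat.zero_le _
  · refine Fin.addCases (fun i => ?_) (fun i => ?_) i
    · simp only [subst, Fin.append_left, Fin.append_right, totalDegree_C]; exact Nat.zero_le _
    · simp only [subst, Fin.append_right, totalDegree_C]; exact Nat.zero_le _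

lemma eval_aeval' {n m : ℕ} (g : Fin n → MvPolynomial (Fin m) ℝ) (x : Fin m → ℝ)
    (q : MvPolynomial (Fin n) ℝ) : eval x (aeval g q) = eval (fun i => eval x (g i)) q := by
  induction q using MvPolynomial.induction_on with
  | C a => simp
  | add p q hp hq => rw [map_add, map_add, map_add, hp, hq]
  | mul_X p i hp => rw [map_mul, map_mul, map_mul, hp, aeval_X, eval_X]

/-- `p₂^k f₂` is not an any-dimensional sum of squares. -/
theorem not_anyDimSos (k : ℕ) : ¬ ∀ n : ℕ, 1 ≤ n → IsSos (trunc n (X 2 ^ k * f₂)) := by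
  intro hall
  have key := sos_closed 3 (k + 28)
    (fun j z => Gfun k (1 / ((j + 1 : ℕ) : ℝ)) (y1 z) (y2 z) (y3 z))
    (fun z => mot (z 0) (z 1) (z 2)) (by
      intro j
      set J := j + 1 with hJ
      obtain ⟨r, h, hh⟩ := hall (6 + (2 * J ^ 18 + 2 * J ^ 18)) (by omega)
      have h1 := sum_sq_homogeneousComponent Finset.univ h _ (k + 28)
        (trunc_f₂_homogeneous _ k) hh
      refine ⟨r, fun i => C ((1 / (J : ℝ)) ^ (4 * k + 1)) *
        aeval (subst (2 * J ^ 18) ((1 / (J : ℝ)) ^ 5 / 2) (1 / (J : ℝ)))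
          (homogeneousComponent (k + 28) (h i)), ?_, ?_⟩
      · intro i
        refine (totalDegree_mul _ _).trans ?_
        rw [totalDegree_C, zero_add]
        exact (totalDegree_aeval_le _ (subst_totalDegree _ _ _) _).trans
          (homogeneousComponent_isHomogeneous _ _).totalDegree_le
      · intro z
        rw [← value k J (by omega), h1, map_sum, Finset.sum_mul]
        refine Finset.sum_congr rfl (fun i _ => ?_)
        rw [map_mul, eval_C, eval_aeval', subst_eval, map_pow]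
        ring)
    (by
      intro z
      have h1 := (Gfun_continuous k (y1 z) (y2 z) (y3 z)).tendsto 0
      rw [Gfun_zero] at h1
      have h2 : Tendsto (fun j : ℕ => 1 / ((j + 1 : ℕ) : ℝ)) atTop (𝓝 0) := by
        have := tendsto_one_div_add_atTop_nhds_zero_nat (𝕜 := ℝ)
        simpa using this
      exact h1.comp h2)
  obtain ⟨r, h, hh⟩ := key
  exact mot_not_sos r h hh

/-- `f` is an any-dimensional sum of squares. -/
def AnyDimSos (g : MvPolynomial ℕ ℝ) : Prop := ∀ n : ℕ, 1 ≤ n → IsSos (trunc n g)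

/-- **Main result.**  Negative answers to both questions.
Q1: `f₁ = 2p₂p₆ - p₄² ∈ ℝ[p₂, p₄, …]` is homogeneous of degree `8 = 2d` and positive on `S`, but for
every `k` the function `p₂^k f₁` has a negative coefficient in its expansion in monomial symmetric
functions.
Q2: `f₂ = p₂ M(p₃p₆, p₄p₅, p₉) + p₄¹⁴ ∈ ℝ[p₂, …, p₅₆]` (`M` the Motzkin form) is homogeneous of
degree `56 = 2d` and positive on `S`, but for no `k` is `p₂^k f₂` an any-dimensional sum of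
squares. -/
theorem result :
    (f₁ ∈ supported ℝ {k : ℕ | 2 ≤ k ∧ Even k} ∧
      IsWeightedHomogeneous (fun k : ℕ => k) f₁ (2 * 4) ∧ (∀ x ∈ sphere, 0 < evalSeq f₁ x) ∧
      ∀ k : ℕ, ¬ HasNonnegExpansion (2 * 4 + 2 * k) (X 2 ^ k * f₁) ∧
        ∃ (n : ℕ) (m : Fin n →₀ ℕ), coeff m (trunc n (X 2 ^ k * f₁)) < 0) ∧
    (f₂ ∈ supported ℝ {k : ℕ | 2 ≤ k ∧ k ≤ 2 * 28} ∧
      IsWeightedHomogeneous (fun k : ℕ => k) f₂ (2 * 28) ∧ (∀ x ∈ sphere, 0 < evalSeq f₂ x) ∧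
      ∀ k : ℕ, ¬ AnyDimSos (X 2 ^ k * f₂)) := by
  have hX : ∀ k : ℕ, IsWeightedHomogeneous (fun k : ℕ => k) (X k : MvPolynomial ℕ ℝ) k := fun k =>
    isWeightedHomogeneous_X ℝ (fun k : ℕ => k) k
  have hC : ∀ r : ℝ, IsWeightedHomogeneous (fun k : ℕ => k) (C r : MvPolynomial ℕ ℝ) 0 := fun r =>
    isWeightedHomogeneous_C _ r
  refine ⟨⟨?_, ?_, fun x hx => f₁_pos hx, fun k => ⟨?_, ⟨_, _, coeff_neg k⟩⟩⟩,
    ⟨?_, ?_, fun x hx => f₂_pos hx, fun k => not_anyDimSos k⟩⟩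
  · have h : ∀ k : ℕ, 2 ≤ k → Even k →
        (X k : MvPolynomial ℕ ℝ) ∈ supported ℝ {k : ℕ | 2 ≤ k ∧ Even k} :=
      fun k h1 h2 => Algebra.subset_adjoin ⟨k, ⟨h1, h2⟩, rfl⟩
    have h2 := h 2 (by norm_num) (by decide)
    have h4 := h 4 (by norm_num) (by decide)
    have h6 := h 6 (by norm_num) (by decide)
    exact sub_mem (mul_mem (mul_mem (Subalgebra.algebraMap_mem _ (2 : ℝ)) h2) h6) (pow_mem h4 2)
  · have h1 := ((hC 2).mul (hX 2)).mul (hX 6)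
    have h2 := (hX 4).pow 2
    exact h1.sub h2
  · exact not_expansion_of_neg _ _ _ _ (coeff_neg k)
  · have h : ∀ k : ℕ, 2 ≤ k → k ≤ 2 * 28 →
        (X k : MvPolynomial ℕ ℝ) ∈ supported ℝ {k : ℕ | 2 ≤ k ∧ k ≤ 2 * 28} :=
      fun k h1 h2 => Algebra.subset_adjoin ⟨k, ⟨h1, h2⟩, rfl⟩
    have h2 := h 2 (by norm_num) (by norm_num)
    have h3 := h 3 (by norm_num) (by norm_num)
    have h4 := h 4 (by norm_num) (by norm_num)
    have h5 := h 5 (by norm_num) (by norm_num)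
    have h6 := h 6 (by norm_num) (by norm_num)
    have h9 := h 9 (by norm_num) (by norm_num)
    have hA := mul_mem h3 h6
    have hB := mul_mem h4 h5
    exact add_mem (mul_mem h2 (add_mem (sub_mem (add_mem (mul_mem (pow_mem hA 4) (pow_mem hB 2))
      (mul_mem (pow_mem hA 2) (pow_mem hB 4))) (mul_mem (Subalgebra.algebraMap_mem _ (3 : ℝ))
        (mul_mem (mul_mem (pow_mem hA 2) (pow_mem hB 2)) (pow_mem h9 2)))) (pow_mem h9 6)))
      (pow_mem h4 14)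
  · have hA := (hX 3).mul (hX 6)
    have hB := (hX 4).mul (hX 5)
    have t1 := (hA.pow 4).mul (hB.pow 2)
    have t2 := (hA.pow 2).mul (hB.pow 4)
    have t3 := (hC 3).mul (((hA.pow 2).mul (hB.pow 2)).mul ((hX 9).pow 2))
    have t4 := (hX 9).pow 6
    have t5 := (hX 4).pow 14
    have e1 : IsWeightedHomogeneous (fun k : ℕ => k)
      (((X 3 : MvPolynomial ℕ ℝ) * X 6) ^ 4 * (X 4 * X 5) ^ 2) 54 := t1
    have e2 : IsWeightedHomogeneous (fun k : ℕ => k)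
      (((X 3 : MvPolynomial ℕ ℝ) * X 6) ^ 2 * (X 4 * X 5) ^ 4) 54 := t2
    have e3 : IsWeightedHomogeneous (fun k : ℕ => k)
      (C 3 * (((X 3 : MvPolynomial ℕ ℝ) * X 6) ^ 2 * (X 4 * X 5) ^ 2 * X 9 ^ 2)) 54 := t3
    have e4 : IsWeightedHomogeneous (fun k : ℕ => k) ((X 9 : MvPolynomial ℕ ℝ) ^ 6) 54 := t4
    have e5 : IsWeightedHomogeneous (fun k : ℕ => k) ((X 4 : MvPolynomial ℕ ℝ) ^ 14) 56 := t5
    exact ((hX 2).mul (((e1.add e2).sub e3).add e4)).add e5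

end Pool.Agent.Results.MP_2f3180_ag.StrictPositivity
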